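import Pool.Agent.helper73.BRZ.Spec

/-!
# Row brz:PHI (MP_a2a22c_al): properties of the weight function
-/

set_option autoImplicit false

namespace Pool.Agent.BRZ

open Matrix Module Pool.Agent.PR Pool.Agent.SHL TensorProduct MeasureTheory
open scoped ENNReal ContDiff RealInnerProductSpace FourierTransform SchwartzMap

theorem PHI_meas {N : ℕ} (δ f : EE N → ℝ) (hδ : Continuous δ) (hf : Continuous f) :
    Measurable fun r : ℝ => ∫ g, if 1 ≤ r * δ g ∧ r * δ g ≤ 2 then f g / δ g else 0 := by
  have h1 : Measurable fun x : ℝ × EE N => x.1 * δ x.2 :=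
    measurable_fst.mul (hδ.measurable.comp measurable_snd)
  have h2 : Measurable fun x : ℝ × EE N => f x.2 / δ x.2 :=
    (hf.measurable.comp measurable_snd).div (hδ.measurable.comp measurable_snd)
  have h3 : Measurable fun x : ℝ × EE N =>
      if 1 ≤ x.1 * δ x.2 ∧ x.1 * δ x.2 ≤ 2 then f x.2 / δ x.2 else 0 := by
    refine Measurable.ite ?_ h2 measurable_const
    exact (measurableSet_le measurable_const h1).inter (measurableSet_le h1 measurable_const)
  exact (h3.stronglyMeasurable.integral_prod_right' (ν := (volume : Measure (EE N)))).measurable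

theorem PHI (hRAL : RAL_stmt) : PHI_stmt := by
  intro d D _ _ _ hd S f hT
  obtain ⟨-, -, hcont, -⟩ := hRAL d D hd S
  obtain ⟨hf1, hf2, hf3, hf4, hf5⟩ := hT
  have hfc : Continuous f := hf1.continuous
  have hdl0 : ∀ g, 0 ≤ S.dl g := fun g => abs_nonneg _
  have hfi : Integrable f := hfc.integrable_of_hasCompactSupport hf2
  have hM : Measurable (S.PhiF f) := PHI_meas S.dl f hcont hfc
  have hint0 : ∀ r g, 0 ≤ (if 1 ≤ r * S.dl g ∧ r * S.dl g ≤ 2 then f g / S.dl g else 0) := by
    intro r g
    split_ifs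
    · exact div_nonneg (hf3 g) (hdl0 g)
    · exact le_refl _
  have hP0 : ∀ r, 0 ≤ S.PhiF f r := fun r => integral_nonneg (hint0 r)
  have hPn : ∀ r, r ≤ 0 → S.PhiF f r = 0 := by
    intro r hr
    refine integral_eq_zero_of_ae (Filter.Eventually.of_forall fun g => if_neg ?_)
    rintro ⟨h, -⟩
    have := mul_nonpos_of_nonpos_of_nonneg hr (hdl0 g)
    linarith
  -- a point where `f` is positive
  obtain ⟨g₀, hg₀⟩ : ∃ g, 0 < f g := by
    by_contra hcon
    push Not at hcon
    have : f = fun _ => 0 := by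
      ext g
      exact le_antisymm (hcon g) (hf3 g)
    rw [this, integral_zero] at hf5
    exact lt_irrefl _ hf5
  have hsub : ∀ g, f g ≠ 0 → g ∈ tsupport f := fun g hg => subset_tsupport f hg
  have hne : (tsupport f).Nonempty := ⟨g₀, hsub g₀ hg₀.ne'⟩
  have hpos : ∀ g ∈ tsupport f, 0 < S.dl g := fun g hg => lt_of_le_of_ne (hdl0 g) (hf4 g hg).symm
  obtain ⟨m, hm, hmin⟩ := hf2.isCompact.exists_isMinOn hne hcont.continuousOn
  obtain ⟨M, hMM, hmax⟩ := hf2.isCompact.exists_isMaxOn hne hcont.continuousOn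
  set δ₁ := S.dl m with hδ₁
  set δ₂ := S.dl M with hδ₂
  have h1 : 0 < δ₁ := hpos m hm
  have h2 : 0 < δ₂ := hpos M hMM
  have hlo : ∀ g ∈ tsupport f, δ₁ ≤ S.dl g := fun g hg => hmin hg
  have hhi : ∀ g ∈ tsupport f, S.dl g ≤ δ₂ := fun g hg => hmax hg
  -- the bound
  have hle : ∀ r g, (if 1 ≤ r * S.dl g ∧ r * S.dl g ≤ 2 then f g / S.dl g else 0) ≤ f g / δ₁ := by
    intro r g
    by_cases hg : f g = 0
    · rw [hg, zero_div, zero_div, ite_self]
    · have h3 := hlo g (hsub g hg)
      split_ifs
      · exact div_le_div_of_nonneg_left (hf3 g) h1 h3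
      · exact div_nonneg (hf3 g) h1.le
  have hmeas : ∀ r, Measurable fun g : EE (d * d) =>
      if 1 ≤ r * S.dl g ∧ r * S.dl g ≤ 2 then f g / S.dl g else 0 := by
    intro r
    have h3 : Measurable fun g : EE (d * d) => r * S.dl g := hcont.measurable.const_mul r
    refine Measurable.ite ?_ (hfc.measurable.div hcont.measurable) measurable_const
    exact (measurableSet_le measurable_const h3).inter (measurableSet_le h3 measurable_const)
  have hinti : ∀ r, Integrable fun g : EE (d * d) =>
      if 1 ≤ r * S.dl g ∧ r * S.dl g ≤ 2 then f g / S.dl g else 0 := by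
    intro r
    refine (hfi.div_const δ₁).mono' (hmeas r).aestronglyMeasurable ?_
    refine Filter.Eventually.of_forall fun g => ?_
    rw [Real.norm_of_nonneg (hint0 r g)]
    exact hle r g
  have hB : ∀ r, S.PhiF f r ≤ ∫ g, f g / δ₁ := fun r =>
    integral_mono (hinti r) (hfi.div_const δ₁) (hle r)
  -- the support
  have hsupp : ∀ r, S.PhiF f r ≠ 0 → 1 ≤ r * δ₂ ∧ r * δ₁ ≤ 2 := by
    intro r hr
    have h3 : ∃ g, (if 1 ≤ r * S.dl g ∧ r * S.dl g ≤ 2 then f g / S.dl g else 0) ≠ 0 := by
      by_contra hcon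
      push Not at hcon
      apply hr
      exact integral_eq_zero_of_ae (Filter.Eventually.of_forall hcon)
    obtain ⟨g, hg⟩ := h3
    have h4 : 1 ≤ r * S.dl g ∧ r * S.dl g ≤ 2 := by
      by_contra hcon
      rw [if_neg hcon] at hg
      exact hg rfl
    rw [if_pos h4] at hg
    have h5 : f g ≠ 0 := fun h => hg (by rw [h, zero_div])
    have h6 := hlo g (hsub g h5)
    have h7 := hhi g (hsub g h5)
    have h8 : 0 < r := by
      by_contra hcon
      have := mul_nonpos_of_nonpos_of_nonneg (not_lt.1 hcon) (hdl0 g)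
      linarith [h4.1]
    exact ⟨h4.1.trans (mul_le_mul_of_nonneg_left h7 h8.le),
      (mul_le_mul_of_nonneg_left h6 h8.le).trans h4.2⟩
  -- positivity
  have hPpos : ∀ r, 1 < r * S.dl g₀ → r * S.dl g₀ < 2 → 0 < S.PhiF f r := by
    intro r hr1 hr2
    unfold SO.PhiF
    rw [integral_pos_iff_support_of_nonneg (hint0 r) (hinti r)]
    have hopen : IsOpen {g : EE (d * d) | 0 < f g ∧ 1 < r * S.dl g ∧ r * S.dl g < 2} :=
      (isOpen_lt continuous_const hfc).inter
        ((isOpen_lt continuous_const (continuous_const.mul hcont)).inter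
          (isOpen_lt (continuous_const.mul hcont) continuous_const))
    refine lt_of_lt_of_le (hopen.measure_pos volume ⟨g₀, hg₀, hr1, hr2⟩) (measure_mono ?_)
    rintro g ⟨ha, hb, hc⟩
    rw [Function.mem_support, if_pos ⟨hb.le, hc.le⟩]
    exact (div_pos ha (hpos g (hsub g ha.ne'))).ne'
  refine ⟨hM, hP0, hPn, ?_, ?_, ⟨∫ g, f g / δ₁, ?_⟩, ⟨min 1 (1 / δ₂), max 1 (2 / δ₁), ?_, ?_⟩, ?_⟩
  · refine Measurable.ite (measurableSet_lt measurable_const measurable_id) ?_ measurable_const
    exact hM.comp (measurable_id.pow_const d)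
  · intro r
    dsimp only
    split_ifs
    · exact hP0 _
    · exact le_refl _
  · intro r
    dsimp only
    split_ifs
    · exact hB _
    · exact (hP0 0).trans (hB 0)
  · exact lt_min one_pos (div_pos one_pos h2)
  · intro r hr
    dsimp only at hr
    by_cases hr0 : 0 < r
    · rw [if_pos hr0] at hr
      obtain ⟨h3, h4⟩ := hsupp _ hr
      constructor
      · by_contra hcon
        rw [not_le] at hcon
        have h5 : r < 1 := lt_of_lt_of_le hcon (min_le_left _ _)
        have h6 : r < 1 / δ₂ := lt_of_lt_of_le hcon (min_le_right _ _)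
        have h7 : r ^ d ≤ r := by
          calc r ^ d ≤ r ^ 1 := pow_le_pow_of_le_one hr0.le h5.le hd
            _ = r := pow_one r
        have h8 : r * δ₂ < 1 := by rwa [lt_div_iff₀ h2] at h6
        have h9 : r ^ d * δ₂ ≤ r * δ₂ := mul_le_mul_of_nonneg_right h7 h2.le
        linarith
      · by_contra hcon
        rw [not_le] at hcon
        have h5 : 1 < r := lt_of_le_of_lt (le_max_left _ _) hcon
        have h6 : 2 / δ₁ < r := lt_of_le_of_lt (le_max_right _ _) hcon
        have h7 : r ≤ r ^ d := by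
          calc r = r ^ 1 := (pow_one r).symm
            _ ≤ r ^ d := pow_le_pow_right₀ h5.le hd
        have h8 : 2 < r * δ₁ := by rwa [div_lt_iff₀ h1] at h6
        have h9 : r * δ₁ ≤ r ^ d * δ₁ := mul_le_mul_of_nonneg_right h7 h1.le
        linarith
    · rw [if_neg hr0] at hr
      exact absurd rfl hr
  · -- positive integral
    have hΨm : Measurable fun r : ℝ => if 0 < r then S.PhiF f (r ^ d) else 0 :=
      Measurable.ite (measurableSet_lt measurable_const measurable_id)
        (hM.comp (measurable_id.pow_const d)) measurable_const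
    have hΨ0 : ∀ r : ℝ, 0 ≤ (if 0 < r then S.PhiF f (r ^ d) else 0) := by
      intro r
      split_ifs
      · exact hP0 _
      · exact le_refl _
    have hΨi : Integrable fun r : ℝ => if 0 < r then S.PhiF f (r ^ d) else 0 := by
      have hsub2 : Function.support (fun r : ℝ => if 0 < r then S.PhiF f (r ^ d) else 0) ⊆
          Set.Icc 0 (max 1 (2 / δ₁)) := by
        intro r hr
        rw [Function.mem_support] at hr
        by_cases hr0 : 0 < r
        · rw [if_pos hr0] at hr
          obtain ⟨h3, h4⟩ := hsupp _ hr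
          refine ⟨hr0.le, ?_⟩
          by_contra hcon
          rw [not_le] at hcon
          have h5 : 1 < r := lt_of_le_of_lt (le_max_left _ _) hcon
          have h6 : 2 / δ₁ < r := lt_of_le_of_lt (le_max_right _ _) hcon
          have h7 : r ≤ r ^ d := by
            calc r = r ^ 1 := (pow_one r).symm
              _ ≤ r ^ d := pow_le_pow_right₀ h5.le hd
          have h8 : 2 < r * δ₁ := by rwa [div_lt_iff₀ h1] at h6
          have h9 : r * δ₁ ≤ r ^ d * δ₁ := mul_le_mul_of_nonneg_right h7 h1.le
          linarith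
        · rw [if_neg hr0] at hr
          exact absurd rfl hr
      rw [← integrableOn_iff_integrable_of_support_subset hsub2]
      refine Measure.integrableOn_of_bounded (M := ∫ g, f g / δ₁) ?_ hΨm.aestronglyMeasurable ?_
      · rw [Real.volume_Icc]
        exact ENNReal.ofReal_ne_top
      · refine Filter.Eventually.of_forall fun r => ?_
        rw [Real.norm_of_nonneg (hΨ0 r)]
        split_ifs
        · exact hB _
        · exact (hP0 0).trans (hB 0)
    rw [integral_pos_iff_support_of_nonneg hΨ0 hΨi]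
    have hδ : 0 < S.dl g₀ := hpos g₀ (hsub g₀ hg₀.ne')
    have hopen : IsOpen {r : ℝ | 0 < r ∧ 1 < r ^ d * S.dl g₀ ∧ r ^ d * S.dl g₀ < 2} :=
      (isOpen_lt continuous_const continuous_id).inter
        ((isOpen_lt continuous_const ((continuous_pow d).mul continuous_const)).inter
          (isOpen_lt ((continuous_pow d).mul continuous_const) continuous_const))
    have hx : 0 < 3 / (2 * S.dl g₀) := by positivity
    have hr₀ : ((3 / (2 * S.dl g₀)) ^ ((d : ℝ)⁻¹)) ^ d = 3 / (2 * S.dl g₀) :=
      Real.rpow_inv_natCast_pow hx.le hd.ne'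
    have hval : 3 / (2 * S.dl g₀) * S.dl g₀ = 3 / 2 := by
      field_simp
    refine lt_of_lt_of_le (hopen.measure_pos volume
      ⟨(3 / (2 * S.dl g₀)) ^ ((d : ℝ)⁻¹), Real.rpow_pos_of_pos hx _, ?_, ?_⟩) (measure_mono ?_)
    · rw [hr₀, hval]; norm_num
    · rw [hr₀, hval]; norm_num
    · rintro r ⟨ha, hb, hc⟩
      rw [Function.mem_support, if_pos ha]
      exact (hPpos _ hb hc).ne'

end Pool.Agent.BRZ
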